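import Pool.Agent.H71.RD.Defs

/-!
# Automorphisms of the structure act on the limits by a permutation
-/

set_option autoImplicit false

open Set

namespace Pool.Agent.H71.RD

lemma kd_eq {s t : ℕ × ℕ × List ℕ} (h : kd s = kd t) : s.1 = t.1 ∧ s.2.1 = t.2.1 ∧ s.2.2 = t.2.2 := by
  have := kd_inj h
  subst this
  exact ⟨rfl, rfl, rfl⟩

lemma aut_inl {g : Equiv.Perm V} (h : IsAut g) (m i : ℕ) :
    ∃ j, g (Sum.inl (m, i)) = Sum.inl (m, j) ∧ (i ≤ m ↔ j ≤ m) := by
  have h1 := ((isAut_iff g).1 h).1 (Sum.inl (m, i))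
  rcases hg : g (Sum.inl (m, i)) with ⟨m', j⟩ | ⟨w, m'⟩
  · rw [hg] at h1
    obtain ⟨-, h2, h3⟩ := kd_eq h1
    simp only at h2 h3
    subst h2
    refine ⟨j, rfl, ?_⟩
    by_cases hi : i ≤ m' <;> by_cases hj : j ≤ m'
    · exact ⟨fun _ => hj, fun _ => hi⟩
    · rw [if_pos hi, if_neg hj] at h3
      simp at h3
    · rw [if_neg hi, if_pos hj] at h3
      simp at h3
    · exact ⟨fun h => absurd h hi, fun h => absurd h hj⟩
  · rw [hg] at h1
    obtain ⟨h2, -⟩ := kd_eq h1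
    simp at h2

lemma aut_inr {g : Equiv.Perm V} (h : IsAut g) (w : Wd) (m : ℕ) :
    ∃ w' : Wd, g (Sum.inr (w, m)) = Sum.inr (w', m) ∧ w'.l.length = w.l.length := by
  have h1 := ((isAut_iff g).1 h).1 (Sum.inr (w, m))
  rcases hg : g (Sum.inr (w, m)) with ⟨m', j⟩ | ⟨w', m'⟩
  · rw [hg] at h1
    obtain ⟨h2, -⟩ := kd_eq h1
    simp at h2
  · rw [hg] at h1
    obtain ⟨-, h2, h3⟩ := kd_eq h1
    simp only at h2 h3
    subst h2
    exact ⟨w', rfl, by simpa using h3⟩

/-- an automorphism maps rays to rays -/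
lemma aut_ray {g : Equiv.Perm V} (h : IsAut g) (w : Wd) :
    ∃ w' : Wd, w'.l.length = w.l.length ∧ ∀ m, g (Sum.inr (w, m)) = Sum.inr (w', m) := by
  obtain ⟨w', hw, hl⟩ := aut_inr h w 0
  refine ⟨w', hl, fun m => ?_⟩
  induction m with
  | zero => exact hw
  | succ m ih =>
    obtain ⟨w'', hw'', -⟩ := aut_inr h w (m + 1)
    have h2 := ((isAut_iff g).1 h).2 (Sum.inr (w, m)) (Sum.inr (w, m + 1))
    rw [ih, hw''] at h2
    have h4 : col2 (Sum.inr (w, m)) (Sum.inr (w, m + 1)) = kd (2, 0, []) := if_pos ⟨rfl, rfl⟩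
    rw [h4] at h2
    simp only [col2] at h2
    split_ifs at h2 with h3
    · rw [hw'', h3.1]
    · exact absurd h2.symm (kd_ne _)

lemma map_of_codes {A B : List ℕ} {γ : ℕ → ℕ} (hl : B.length = A.length)
    (h : ∀ i ∈ A, (B.map fun x => if x = γ i then 1 else 0) =
      A.map fun x => if x = i then (1 : ℕ) else 0) : B = A.map γ := by
  refine List.ext_getElem (by simpa using hl) fun p hp hp' => ?_
  rw [List.getElem_map]
  have hpA : p < A.length := by simpa using hp'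
  have h1 := h (A[p]) (List.getElem_mem hpA)
  have h2 := congrArg (fun L => L[p]?) h1
  simp only [List.getElem?_map, List.getElem?_eq_getElem hp, List.getElem?_eq_getElem hpA,
    Option.map_some, Option.some.injEq, if_true] at h2
  by_contra hne
  rw [if_neg hne] at h2
  simp at h2

/-- the ray map is compatible with the maps on the hubs -/
lemma aut_map {g : Equiv.Perm V} (h : IsAut g) {w w' : Wd} (hl : w'.l.length = w.l.length)
    (hw : ∀ m, g (Sum.inr (w, m)) = Sum.inr (w', m)) {γ : ℕ → ℕ → ℕ}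
    (hγ : ∀ m i, g (Sum.inl (m, i)) = Sum.inl (m, γ m i)) (m : ℕ) :
    w'.a m = (w.a m).map (γ m) := by
  refine map_of_codes ?_ fun i hi => ?_
  · have h1 : (w'.a m).length = w'.l.length := w'.2.1 m
    have h2 : (w.a m).length = w.l.length := w.2.1 m
    rw [h1, h2, hl]
  · have h2 := ((isAut_iff g).1 h).2 (Sum.inr (w, m)) (Sum.inl (m, i))
    rw [hw, hγ] at h2
    have h4 : col2 (Sum.inr (w, m)) (Sum.inl (m, i)) =
      kd (3, 0, (w.a m).map fun x => if x = i then 1 else 0) := if_pos ⟨rfl, hi⟩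
    rw [h4] at h2
    simp only [col2] at h2
    split_ifs at h2 with h3
    · exact (kd_eq h2).2.2
    · exact absurd h2.symm (kd_ne _)

/-- the limit map: `π i` is the limit of the values at `i` -/
lemma exists_lim {g : Equiv.Perm V} (h : IsAut g) {γ : ℕ → ℕ → ℕ}
    (hγ : ∀ m i, g (Sum.inl (m, i)) = Sum.inl (m, γ m i)) (i : ℕ) :
    ∃ j, ∃ n, ∀ m, n ≤ m → γ m i = j := by
  obtain ⟨w', hl, hw⟩ := aut_ray h (cst [i])
  have hm := aut_map h hl hw hγ
  have hlen : w'.l.length = 1 := hl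
  obtain ⟨j, hj⟩ := List.length_eq_one_iff.1 hlen
  obtain ⟨n, hn⟩ := w'.2.2.2
  refine ⟨j, max n i, fun m hnm => ?_⟩
  have h1 : w'.a m = w'.l := hn m ((le_max_left _ _).trans hnm)
  have h2 : (cst [i]).a m = [min i m] := rfl
  have h3 : min i m = i := min_eq_left ((le_max_right _ _).trans hnm)
  have h4 := hm m
  rw [h1, h2, h3, hj] at h4
  simpa using h4.symm

lemma exists_pi_fun {g : Equiv.Perm V} (h : IsAut g) :
    ∃ π : ℕ → ℕ, ∀ w : Wd, ∃ w' : Wd, (∀ m, g (Sum.inr (w, m)) = Sum.inr (w', m)) ∧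
      w'.l = w.l.map π := by
  choose γ hγ _ using aut_inl h
  choose π N hπ using exists_lim h hγ
  refine ⟨π, fun w => ?_⟩
  obtain ⟨w', hl, hw⟩ := aut_ray h w
  refine ⟨w', hw, ?_⟩
  have hm := aut_map h hl hw hγ
  obtain ⟨n, hn⟩ := w.2.2.2
  obtain ⟨n', hn'⟩ := w'.2.2.2
  have h1 : w'.a (max (max n n') (w.l.map N).sum) = w'.l :=
    hn' _ ((le_max_right _ _).trans (le_max_left _ _))
  have h2 : w.a (max (max n n') (w.l.map N).sum) = w.l :=
    hn _ ((le_max_left _ _).trans (le_max_left _ _))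
  rw [← h1, hm, h2]
  refine List.map_congr_left fun i hi => hπ i _ ?_
  exact (List.le_sum_of_mem (List.mem_map_of_mem hi)).trans (le_max_right _ _)

/-- **the permutation of an automorphism** -/
theorem exists_pi {g : Equiv.Perm V} (h : IsAut g) :
    ∃ π : Equiv.Perm ℕ, ∀ w : Wd, ∃ w' : Wd, (∀ m, g (Sum.inr (w, m)) = Sum.inr (w', m)) ∧
      w'.l = w.l.map π := by
  obtain ⟨π, hπ⟩ := exists_pi_fun h
  obtain ⟨ρ, hρ⟩ := exists_pi_fun (isAut_symm h)
  have key : ∀ i, ρ (π i) = i := by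
    intro i
    obtain ⟨w', h1, h2⟩ := hπ (cst [i])
    obtain ⟨w'', h3, h4⟩ := hρ w'
    have e : w'' = cst [i] := by
      have h5 := h3 0
      rw [← h1 0, Equiv.symm_apply_apply] at h5
      have h6 := Sum.inr.inj h5
      exact (congrArg Prod.fst h6).symm
    rw [e, cst_l, h2, cst_l] at h4
    simpa using h4.symm
  have key' : ∀ i, π (ρ i) = i := by
    intro i
    obtain ⟨w', h1, h2⟩ := hρ (cst [i])
    obtain ⟨w'', h3, h4⟩ := hπ w'
    have e : w'' = cst [i] := by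
      have h5 := h3 0
      rw [← h1 0, Equiv.apply_symm_apply] at h5
      have h6 := Sum.inr.inj h5
      exact (congrArg Prod.fst h6).symm
    rw [e, cst_l, h2, cst_l] at h4
    simpa using h4.symm
  exact ⟨⟨π, ρ, key, key'⟩, hπ⟩

end Pool.Agent.H71.RD
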