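import Mathlib

/-!
# A structure with a sparse Gaifman graph whose automorphism group maps onto `Sym(ℕ)`

Hubs `(m, i)`, of which those with `i ≤ m` are used, and rays `(w, m)`, where `w` is an eventually
constant sequence of lists `w.a m` of numbers at most `m`; the point `(w, m)` is joined to the hubs
`(m, i)` with `i` in `w.a m`.
-/

set_option autoImplicit false

open Set

namespace Pool.Agent.H71.RD

/-- eventually constant sequences of lists -/
def IsWd (p : (ℕ → List ℕ) × List ℕ) : Prop :=
  (∀ m, (p.1 m).length = p.2.length) ∧ (∀ m, ∀ i ∈ p.1 m, i ≤ m) ∧ ∃ n, ∀ m, n ≤ m → p.1 m = p.2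

/-- eventually constant sequences of lists, with the limit -/
def Wd : Type := {p : (ℕ → List ℕ) × List ℕ // IsWd p}

/-- the sequence -/
def Wd.a (w : Wd) : ℕ → List ℕ := w.1.1

/-- the limit -/
def Wd.l (w : Wd) : List ℕ := w.1.2

lemma Wd.ext {w w' : Wd} (h : w.a = w'.a) (h' : w.l = w'.l) : w = w' :=
  Subtype.ext (Prod.ext h h')

lemma Wd.eq_of_a {w w' : Wd} (h : w.a = w'.a) : w = w' := by
  refine Wd.ext h ?_
  obtain ⟨n, hn⟩ := w.2.2.2
  obtain ⟨n', hn'⟩ := w'.2.2.2
  have h1 : w.a (max n n') = w.l := hn _ (le_max_left _ _)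
  have h2 : w'.a (max n n') = w'.l := hn' _ (le_max_right _ _)
  rw [← h1, ← h2, h]

instance : Countable Wd := by
  have hinj : Function.Injective (fun w : Wd =>
      ((w.l, (List.range (Classical.choose w.2.2.2)).map w.a) : List ℕ × List (List ℕ))) := by
    intro w w' h
    obtain ⟨h1, h2⟩ := Prod.ext_iff.1 h
    have e1 : w.l = w'.l := h1
    have e2 : (List.range (Classical.choose w.2.2.2)).map w.a =
      (List.range (Classical.choose w'.2.2.2)).map w'.a := h2
    have hn := Classical.choose_spec w.2.2.2
    have hn' := Classical.choose_spec w'.2.2.2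
    have e3 : Classical.choose w.2.2.2 = Classical.choose w'.2.2.2 := by
      have := congrArg List.length e2
      simpa using this
    refine Wd.ext (funext fun m => ?_) e1
    by_cases hm : m < Classical.choose w.2.2.2
    · have e4 := congrArg (fun L => L[m]?) e2
      simp only [List.getElem?_map] at e4
      rw [List.getElem?_range hm, List.getElem?_range (by omega)] at e4
      simpa using e4
    · have h3 : w.a m = w.l := hn m (by omega)
      have h4 : w'.a m = w'.l := hn' m (by omega)
      rw [h3, h4, e1]
  exact hinj.countable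

/-- the vertices: hubs and points of rays -/
abbrev V : Type := (ℕ × ℕ) ⊕ (Wd × ℕ)

/-- a code of colours -/
def kd (t : ℕ × ℕ × List ℕ) : ℕ := Encodable.encode t + 1

lemma kd_inj {s t : ℕ × ℕ × List ℕ} (h : kd s = kd t) : s = t := by
  unfold kd at h
  exact Encodable.encode_injective (Nat.succ_injective h)

lemma kd_ne (t : ℕ × ℕ × List ℕ) : kd t ≠ 0 := Nat.succ_ne_zero _

open Classical in
/-- the colour of a pair -/
noncomputable def col2 : V → V → ℕ
  | Sum.inr (w, m), Sum.inr (w', m') => if w' = w ∧ m' = m + 1 then kd (2, 0, []) else 0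
  | Sum.inr (w, m), Sum.inl (m', i) =>
      if m' = m ∧ i ∈ w.a m then kd (3, 0, (w.a m).map fun x => if x = i then 1 else 0) else 0
  | Sum.inl _, _ => 0

/-- the colour of a point -/
def col1 : V → ℕ
  | Sum.inr (w, m) => kd (1, m, [w.l.length])
  | Sum.inl (m, i) => kd (0, m, [if i ≤ m then 1 else 0])

/-- the structure -/
noncomputable def col : List V → ℕ
  | [v] => col1 v
  | [u, v] => col2 u v
  | _ => 0

/-- automorphisms -/
def IsAut (g : Equiv.Perm V) : Prop := ∀ l : List V, col (l.map g) = col l

lemma isAut_iff (g : Equiv.Perm V) :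
    IsAut g ↔ (∀ v, col1 (g v) = col1 v) ∧ ∀ u v, col2 (g u) (g v) = col2 u v := by
  constructor
  · intro h
    exact ⟨fun v => h [v], fun u v => h [u, v]⟩
  · rintro ⟨h1, h2⟩ l
    match l with
    | [] => rfl
    | [v] => exact h1 v
    | [u, v] => exact h2 u v
    | _ :: _ :: _ :: _ => rfl

lemma isAut_symm {g : Equiv.Perm V} (h : IsAut g) : IsAut g.symm := by
  intro l
  rw [← h (l.map g.symm), List.map_map]
  simp

/-- constant sequences -/
def cst (l : List ℕ) : Wd :=
  ⟨(fun m => l.map fun i => min i m, l), by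
    refine ⟨fun m => List.length_map _, fun m i hi => ?_, l.sum, fun m hm => ?_⟩
    · obtain ⟨j, -, rfl⟩ := List.mem_map.1 hi
      exact min_le_right _ _
    · change l.map (fun i => min i m) = l
      conv_rhs => rw [← List.map_id l]
      refine List.map_congr_left fun i hi => ?_
      exact min_eq_left ((List.le_sum_of_mem hi).trans hm)⟩

lemma cst_l (l : List ℕ) : (cst l).l = l := rfl

end Pool.Agent.H71.RD
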