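import Mathlib

/-!
# No short subdivided cliques in graphs with levels
-/

set_option autoImplicit false

open Set

namespace Pool.Agent.H71.RD

lemma lev_walk {G : SimpleGraph ℕ} {lev : ℕ → ℕ} (h : ∀ u v, G.Adj u v → lev v ≤ lev u + 1)
    {u v : ℕ} (p : G.Walk u v) : lev v ≤ lev u + p.length := by
  induction p with
  | nil => simp
  | cons hadj p ih =>
    have := h _ _ hadj
    rw [SimpleGraph.Walk.length_cons]
    omega

/-- a graph with levels which change by at most one along edges, such that only finitely many
vertices of infinite degree have level at most `L`, has no subdivided clique with short paths -/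
theorem no_short {G : SimpleGraph ℕ} {lev : ℕ → ℕ} (h : ∀ u v, G.Adj u v → lev v ≤ lev u + 1)
    (hf : ∀ L, {u | lev u ≤ L ∧ {v | G.Adj u v}.Infinite}.Finite) (n : ℕ) (b : ℕ → ℕ)
    (P : ∀ i j, G.Walk (b i) (b j)) (hb : Function.Injective b)
    (h1 : ∀ i j, i < j → (P i j).length ≤ n ∧ ∀ k, b k ∈ (P i j).support → k = i ∨ k = j)
    (h2 : ∀ i j k l, i < j → k < l → (i, j) ≠ (k, l) →
      ∀ v ∈ (P i j).support, v ∈ (P k l).support → v ∈ range b) : False := by
  have hdeg : ∀ i, {v | G.Adj (b i) v}.Infinite := by
    intro i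
    have hadj : ∀ j, i < j → G.Adj (b i) ((P i j).getVert 1) := by
      intro j hij
      have hnil : ¬ (P i j).Nil := by
        intro hn
        have := hb hn.eq
        omega
      have := (P i j).adj_getVert_succ (i := 0) (by
        rw [Nat.pos_iff_ne_zero]
        exact fun h0 => hnil (SimpleGraph.Walk.nil_iff_length_eq.2 h0))
      rwa [SimpleGraph.Walk.getVert_zero] at this
    refine Set.infinite_of_injective_forall_mem (f := fun j : ℕ => (P i (i + 1 + j)).getVert 1)
      ?_ (fun j => hadj _ (by omega))
    intro j j' hjj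
    by_contra hne
    have hs : (P i (i + 1 + j)).getVert 1 ∈ (P i (i + 1 + j)).support :=
      SimpleGraph.Walk.getVert_mem_support _ _
    have hs' : (P i (i + 1 + j)).getVert 1 ∈ (P i (i + 1 + j')).support := by
      simp only at hjj
      rw [hjj]
      exact SimpleGraph.Walk.getVert_mem_support _ _
    obtain ⟨k, hk⟩ := h2 i (i + 1 + j) i (i + 1 + j') (by omega) (by omega)
      (by intro h; exact hne (by simpa using h)) _ hs hs'
    have e1 := (h1 i (i + 1 + j) (by omega)).2 k (by rw [hk]; exact hs)
    have e2 := (h1 i (i + 1 + j') (by omega)).2 k (by rw [hk]; exact hs')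
    have e3 : k = i := by omega
    subst e3
    have := hadj (k + 1 + j) (by omega)
    rw [← hk] at this
    exact G.loopless.irrefl _ this
  refine Set.infinite_of_injective_forall_mem (s := {u | lev u ≤ lev (b 0) + n ∧
    {v | G.Adj u v}.Infinite}) hb (fun i => ?_) (hf _)
  refine ⟨?_, hdeg i⟩
  rcases Nat.eq_zero_or_pos i with rfl | hi
  · omega
  · have := lev_walk h (P 0 i)
    have := (h1 0 i hi).1
    omega

end Pool.Agent.H71.RD
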