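import Pool.Agent.H71.RD.Defs

/-!
# Levels of the structure
-/

set_option autoImplicit false

open Set

namespace Pool.Agent.H71.RD

/-- the level -/
def lv : V → ℕ
  | Sum.inl (m, _) => m
  | Sum.inr (_, m) => m

lemma lv_col2 {a b : V} (h : col2 a b ≠ 0) : lv b ≤ lv a + 1 ∧ lv a ≤ lv b + 1 := by
  match a, b with
  | Sum.inr (w, m), Sum.inr (w', m') =>
    simp only [col2] at h
    split_ifs at h with h1
    · obtain ⟨-, rfl⟩ := h1
      simp only [lv]
      omega
    · exact absurd rfl h
  | Sum.inr (w, m), Sum.inl (m', i) =>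
    simp only [col2] at h
    split_ifs at h with h1
    · obtain ⟨rfl, -⟩ := h1
      simp only [lv]
      omega
    · exact absurd rfl h
  | Sum.inl _, Sum.inl _ => exact absurd rfl h
  | Sum.inl _, Sum.inr _ => exact absurd rfl h

/-- adjacency in the structure -/
def Adj (a b : V) : Prop := col2 a b ≠ 0 ∨ col2 b a ≠ 0

lemma nbr_ray (w : Wd) (m : ℕ) : {b | Adj (Sum.inr (w, m)) b}.Finite := by
  refine Set.Finite.subset (s := ({Sum.inr (w, m + 1), Sum.inr (w, m - 1)} : Set V) ∪
    (fun i => (Sum.inl (m, i) : V)) '' {i | i ∈ w.a m}) ?_ ?_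
  · exact (Set.toFinite _).union ((List.finite_toSet _).image _)
  · intro b hb
    rcases hb with hb | hb
    · match b with
      | Sum.inr (w', m') =>
        simp only [col2] at hb
        split_ifs at hb with h1
        · obtain ⟨rfl, rfl⟩ := h1
          left
          left
          rfl
        · exact absurd rfl hb
      | Sum.inl (m', i) =>
        simp only [col2] at hb
        split_ifs at hb with h1
        · obtain ⟨rfl, h2⟩ := h1
          right
          exact ⟨i, h2, rfl⟩
        · exact absurd rfl hb
    · match b with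
      | Sum.inr (w', m') =>
        simp only [col2] at hb
        split_ifs at hb with h1
        · obtain ⟨rfl, rfl⟩ := h1
          left
          right
          simp
        · exact absurd rfl hb
      | Sum.inl (m', i) => exact absurd rfl hb

lemma nbr_hub {m i : ℕ} {b : V} (h : Adj (Sum.inl (m, i)) b) : i ≤ m := by
  rcases h with h | h
  · match b with
    | Sum.inr _ => exact absurd rfl h
    | Sum.inl _ => exact absurd rfl h
  · match b with
    | Sum.inr (w, m') =>
      simp only [col2] at h
      split_ifs at h with h1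
      · obtain ⟨rfl, h2⟩ := h1
        exact w.2.2.1 _ _ h2
      · exact absurd rfl h
    | Sum.inl _ => exact absurd rfl h

lemma fin_deg (L : ℕ) : {a : V | lv a ≤ L ∧ {b | Adj a b}.Infinite}.Finite := by
  refine Set.Finite.subset (s := (fun p : ℕ × ℕ => (Sum.inl p : V)) '' (Iic L ×ˢ Iic L)) ?_ ?_
  · exact ((finite_Iic L).prod (finite_Iic L)).image _
  · rintro a ⟨h1, h2⟩
    match a with
    | Sum.inr (w, m) => exact absurd (nbr_ray w m) h2
    | Sum.inl (m, i) =>
      obtain ⟨b, hb⟩ := h2.nonempty
      have h3 : m ≤ L := h1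
      exact ⟨(m, i), ⟨h3, (nbr_hub hb).trans h3⟩, rfl⟩

lemma col_pair {l : List V} {a b : V} (hab : a ≠ b) (h : col l ≠ 0) (ha : a ∈ l) (hb : b ∈ l) :
    Adj a b := by
  match l with
  | [] => simp at ha
  | [v] =>
    rw [List.mem_singleton] at ha hb
    exact absurd (ha.trans hb.symm) hab
  | [u, v] =>
    have h' : col2 u v ≠ 0 := h
    simp only [List.mem_cons, List.not_mem_nil, or_false] at ha hb
    rcases ha with rfl | rfl <;> rcases hb with rfl | rfl
    · exact absurd rfl hab
    · exact Or.inl h'
    · exact Or.inr h'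
    · exact absurd rfl hab
  | _ :: _ :: _ :: _ => exact absurd rfl h

end Pool.Agent.H71.RD
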