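import Pool.Agent.H71.RD.Defs

/-!
# Every permutation of the natural numbers is the limit of an automorphism
-/

set_option autoImplicit false

open Set

namespace Pool.Agent.H71.RD

/-- a sequence of permutations of the initial segments with limit `σ` -/
structure Seq (s : ℕ → Equiv.Perm ℕ) (σ : Equiv.Perm ℕ) : Prop where
  le : ∀ m i, s m i ≤ m ↔ i ≤ m
  lim : ∀ i, ∃ n, ∀ m, n ≤ m → s m i = σ i

lemma Seq.symm {s : ℕ → Equiv.Perm ℕ} {σ : Equiv.Perm ℕ} (h : Seq s σ) :
    Seq (fun m => (s m).symm) σ.symm where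
  le m i := by
    have := h.le m ((s m).symm i)
    rw [Equiv.apply_symm_apply] at this
    exact this.symm
  lim i := by
    obtain ⟨n, hn⟩ := h.lim (σ.symm i)
    refine ⟨n, fun m hm => ?_⟩
    rw [Equiv.symm_apply_eq, hn m hm, Equiv.apply_symm_apply]

lemma exists_seq (σ : Equiv.Perm ℕ) : ∃ s, Seq s σ := by
  classical
  have key : ∀ m : ℕ, ∃ s : Equiv.Perm ℕ, (∀ i, s i ≤ m ↔ i ≤ m) ∧
      ∀ i, i ≤ m → σ i ≤ m → s i = σ i := by
    intro m
    let e : {x : Fin (m + 1) // σ x < m + 1} ≃ {y : Fin (m + 1) // σ.symm y < m + 1} :=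
      { toFun := fun x => ⟨⟨σ x.1, x.2⟩, by
          simp only [Equiv.symm_apply_apply]
          exact x.1.2⟩
        invFun := fun y => ⟨⟨σ.symm y.1, y.2⟩, by
          simp only [Equiv.apply_symm_apply]
          exact y.1.2⟩
        left_inv := fun x => by
          apply Subtype.ext
          apply Fin.ext
          simp
        right_inv := fun y => by
          apply Subtype.ext
          apply Fin.ext
          simp }
    let t : Equiv.Perm (Fin (m + 1)) := e.extendSubtype
    let u : Equiv.Perm {i : ℕ // i < m + 1} :=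
      ⟨fun i => ⟨t ⟨i.1, i.2⟩, (t ⟨i.1, i.2⟩).2⟩, fun i => ⟨t.symm ⟨i.1, i.2⟩,
        (t.symm ⟨i.1, i.2⟩).2⟩, fun i => by simp, fun i => by simp⟩
    refine ⟨Equiv.Perm.ofSubtype u, fun i => ?_, fun i hi hs => ?_⟩
    · constructor
      · intro h
        by_contra hi
        rw [Equiv.Perm.ofSubtype_apply_of_not_mem u (by omega)] at h
        exact hi h
      · intro h
        rw [Equiv.Perm.ofSubtype_apply_of_mem u (by omega)]
        exact Nat.le_of_lt_succ (u ⟨i, by omega⟩).2
    · rw [Equiv.Perm.ofSubtype_apply_of_mem u (by omega)]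
      have h1 : t ⟨i, by omega⟩ = ((e ⟨⟨i, by omega⟩, by
          change σ i < m + 1
          omega⟩ : {y : Fin (m + 1) // σ.symm y < m + 1}) : Fin (m + 1)) :=
        Equiv.extendSubtype_apply_of_mem e _ _
      change ((t ⟨i, by omega⟩ : Fin (m + 1)) : ℕ) = σ i
      rw [h1]
      rfl
  choose s h1 h2 using key
  exact ⟨s, h1, fun i => ⟨max i (σ i), fun m hm =>
    h2 m i ((le_max_left _ _).trans hm) ((le_max_right _ _).trans hm)⟩⟩

/-- the action on the sequences of lists -/
def act {s : ℕ → Equiv.Perm ℕ} {σ : Equiv.Perm ℕ} (h : Seq s σ) (w : Wd) : Wd :=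
  ⟨(fun m => (w.a m).map (s m), w.l.map σ), by
    refine ⟨fun m => ?_, fun m i hi => ?_, ?_⟩
    · rw [List.length_map, List.length_map]
      exact w.2.1 m
    · obtain ⟨j, hj, rfl⟩ := List.mem_map.1 hi
      exact (h.le m j).2 (w.2.2.1 m j hj)
    · choose N hN using h.lim
      obtain ⟨n, hn⟩ := w.2.2.2
      refine ⟨max n (w.l.map N).sum, fun m hm => ?_⟩
      have h1 : w.a m = w.l := hn m ((le_max_left _ _).trans hm)
      change (w.a m).map (s m) = w.l.map σ
      rw [h1]
      refine List.map_congr_left fun i hi => hN i _ ?_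
      exact (List.le_sum_of_mem (List.mem_map_of_mem hi)).trans ((le_max_right _ _).trans hm)⟩

lemma act_act {s : ℕ → Equiv.Perm ℕ} {σ : Equiv.Perm ℕ} (h : Seq s σ) (w : Wd) :
    act h.symm (act h w) = w := by
  refine Wd.ext (funext fun m => ?_) ?_
  · change ((w.a m).map (s m)).map (s m).symm = w.a m
    rw [List.map_map]
    simp
  · change (w.l.map σ).map σ.symm = w.l
    rw [List.map_map]
    simp

lemma act_act' {s : ℕ → Equiv.Perm ℕ} {σ : Equiv.Perm ℕ} (h : Seq s σ) (w : Wd) :
    act h (act h.symm w) = w := by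
  refine Wd.ext (funext fun m => ?_) ?_
  · change ((w.a m).map (s m).symm).map (s m) = w.a m
    rw [List.map_map]
    simp
  · change (w.l.map σ.symm).map σ = w.l
    rw [List.map_map]
    simp

/-- the automorphism -/
def lift {s : ℕ → Equiv.Perm ℕ} {σ : Equiv.Perm ℕ} (h : Seq s σ) : Equiv.Perm V where
  toFun
    | Sum.inl (m, i) => Sum.inl (m, s m i)
    | Sum.inr (w, m) => Sum.inr (act h w, m)
  invFun
    | Sum.inl (m, i) => Sum.inl (m, (s m).symm i)
    | Sum.inr (w, m) => Sum.inr (act h.symm w, m)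
  left_inv := by
    rintro (⟨m, i⟩ | ⟨w, m⟩)
    · simp
    · simp only [act_act]
  right_inv := by
    rintro (⟨m, i⟩ | ⟨w, m⟩)
    · simp
    · simp only [act_act']

lemma lift_inl {s : ℕ → Equiv.Perm ℕ} {σ : Equiv.Perm ℕ} (h : Seq s σ) (m i : ℕ) :
    lift h (Sum.inl (m, i)) = Sum.inl (m, s m i) := rfl

lemma lift_inr {s : ℕ → Equiv.Perm ℕ} {σ : Equiv.Perm ℕ} (h : Seq s σ) (w : Wd) (m : ℕ) :
    lift h (Sum.inr (w, m)) = Sum.inr (act h w, m) := rfl

lemma act_inj {s : ℕ → Equiv.Perm ℕ} {σ : Equiv.Perm ℕ} (h : Seq s σ) {w w' : Wd} :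
    act h w = act h w' ↔ w = w' := by
  constructor
  · intro e
    rw [← act_act h w, e, act_act]
  · rintro rfl
    rfl

theorem isAut_lift {s : ℕ → Equiv.Perm ℕ} {σ : Equiv.Perm ℕ} (h : Seq s σ) : IsAut (lift h) := by
  rw [isAut_iff]
  constructor
  · rintro (⟨m, i⟩ | ⟨w, m⟩)
    · rw [lift_inl]
      simp only [col1, h.le]
    · rw [lift_inr]
      simp only [col1]
      have : (act h w).l.length = w.l.length := List.length_map _
      rw [this]
  · rintro (⟨m, i⟩ | ⟨w, m⟩) (⟨m', i'⟩ | ⟨w', m'⟩)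
    · rfl
    · rfl
    · rw [lift_inr, lift_inl]
      simp only [col2]
      by_cases hm : m' = m
      · subst hm
        have h1 : (act h w).a m' = (w.a m').map (s m') := rfl
        have h2 : s m' i' ∈ (w.a m').map (s m') ↔ i' ∈ w.a m' :=
          List.mem_map_of_injective (s m').injective
        have h3 : ((w.a m').map (s m')).map (fun x => if x = s m' i' then 1 else 0) =
            (w.a m').map (fun x => if x = i' then (1 : ℕ) else 0) := by
          rw [List.map_map]
          refine List.map_congr_left fun x _ => ?_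
          simp only [Function.comp, EmbeddingLike.apply_eq_iff_eq]
        rw [h1, h3]
        simp only [h2]
      · rw [if_neg (fun h' => hm h'.1), if_neg (fun h' => hm h'.1)]
    · rw [lift_inr, lift_inr]
      simp only [col2]
      by_cases hw : w' = w ∧ m' = m + 1
      · rw [if_pos hw, if_pos ⟨by rw [hw.1], hw.2⟩]
      · rw [if_neg hw, if_neg fun h' => hw ⟨(act_inj h).1 h'.1, h'.2⟩]

/-- **every permutation lifts** -/
theorem exists_lift (σ : Equiv.Perm ℕ) : ∃ g : Equiv.Perm V, IsAut g ∧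
    (∀ p, ∃ q, g (Sum.inl p) = Sum.inl q) ∧
    ∀ w m, ∃ w' : Wd, g (Sum.inr (w, m)) = Sum.inr (w', m) ∧ w'.l = w.l.map σ := by
  obtain ⟨s, h⟩ := exists_seq σ
  exact ⟨lift h, isAut_lift h, fun p => ⟨_, rfl⟩, fun w m => ⟨_, rfl, rfl⟩⟩

end Pool.Agent.H71.RD
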