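import Pool.Agent.H71.RD.Graph
import Pool.Agent.H71.RD.Lev
import Pool.Agent.H71.RD.Auto
import Pool.Agent.H71.RD.Lift

/-!
# Colourings of one sparse structure code all structures
-/

set_option autoImplicit false

open Set

namespace Pool.Agent.H71.RD

/-- the colouring given by a structure -/
def chi {C : Type} (x : List ℕ → C) : V → C
  | Sum.inl _ => x []
  | Sum.inr (w, _) => x w.l

lemma chi_aut {a : Equiv.Perm V} (h : IsAut a) : ∃ π : Equiv.Perm ℕ, ∀ {C : Type}
    (x : List ℕ → C) (v : V), chi x (a v) = chi (fun l => x (l.map π)) v := by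
  obtain ⟨π, hπ⟩ := exists_pi h
  refine ⟨π, fun x v => ?_⟩
  match v with
  | Sum.inl (m, i) =>
    obtain ⟨j, hj, -⟩ := aut_inl h m i
    rw [hj]
    rfl
  | Sum.inr (w, m) =>
    obtain ⟨w', hw, hl⟩ := hπ w
    rw [hw m]
    change x w'.l = x (w.l.map π)
    rw [hl]

lemma chi_lift (σ : Equiv.Perm ℕ) : ∃ a : Equiv.Perm V, IsAut a ∧ ∀ {C : Type}
    (x : List ℕ → C) (v : V), chi x (a v) = chi (fun l => x (l.map σ)) v := by
  obtain ⟨a, h, h1, h2⟩ := exists_lift σ
  refine ⟨a, h, fun x v => ?_⟩
  match v with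
  | Sum.inl p =>
    obtain ⟨q, hq⟩ := h1 p
    rw [hq]
    rfl
  | Sum.inr (w, m) =>
    obtain ⟨w', hw, hl⟩ := h2 w m
    rw [hw]
    change x w'.l = x (w.l.map σ)
    rw [hl]

/-- **Theorem.** There is a structure `m` without subdivisions of the infinite complete graph by
paths of bounded length such that the countable-or-perfect dichotomy for the colourings of `m`, up
to automorphisms of `m`, implies Vaught's conjecture. -/
theorem exists_sparse : ∃ m : List ℕ → ℕ,
    (∀ (G : SimpleGraph ℕ), (∀ u v, G.Adj u v → u ≠ v ∧ ∃ l : List ℕ, m l ≠ 0 ∧ u ∈ l ∧ v ∈ l) →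
      ∀ (n : ℕ) (b : ℕ → ℕ) (P : ∀ i j, G.Walk (b i) (b j)), Function.Injective b →
      (∀ i j, i < j → (P i j).length ≤ n ∧ ∀ k, b k ∈ (P i j).support → k = i ∨ k = j) →
      ¬ (∀ i j k l, i < j → k < l → (i, j) ≠ (k, l) →
        ∀ v ∈ (P i j).support, v ∈ (P k l).support → v ∈ range b)) ∧
    ∀ {C : Type} [MeasurableSpace C] [StandardBorelSpace C],
      (∀ A : Set (ℕ → C), MeasurableSet A →
        (∀ c ∈ A, ∀ (c' : ℕ → C) (g : Equiv.Perm ℕ), (∀ l, m (l.map g) = m l) →
          (∀ i, c' (g i) = c i) → c' ∈ A) →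
        (∃ D : Set (ℕ → C), D.Countable ∧ ∀ c ∈ A, ∃ c' ∈ D, ∃ g : Equiv.Perm ℕ,
          (∀ l, m (l.map g) = m l) ∧ ∀ i, c' (g i) = c i) ∨
        ∃ F : (ℕ → Bool) → ℕ → C, Measurable F ∧ (∀ u, F u ∈ A) ∧ ∀ u v, u ≠ v →
          ¬ ∃ g : Equiv.Perm ℕ, (∀ l, m (l.map g) = m l) ∧ ∀ i, F v (g i) = F u i) →
      ∀ X : Set (List ℕ → C), MeasurableSet X →
        (∀ x ∈ X, ∀ (y : List ℕ → C) (g : Equiv.Perm ℕ), (∀ l, y (l.map g) = x l) → y ∈ X) →
        (∃ D : Set (List ℕ → C), D.Countable ∧ ∀ x ∈ X, ∃ y ∈ D, ∃ g : Equiv.Perm ℕ,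
          ∀ l, y (l.map g) = x l) ∨
        ∃ F : (ℕ → Bool) → List ℕ → C, Measurable F ∧ (∀ u, F u ∈ X) ∧ ∀ u v, u ≠ v →
          ¬ ∃ g : Equiv.Perm ℕ, ∀ l, F v (l.map g) = F u l := by
  classical
  obtain ⟨e⟩ : Nonempty (ℕ ≃ V) := nonempty_equiv_of_countable
  refine ⟨fun l => col (l.map e), ?_, ?_⟩
  · intro G hG n b P hb h1 h2
    refine no_short (G := G) (lev := fun i => lv (e i)) (fun u v huv => ?_) (fun L => ?_) n b P hb
      h1 h2
    · obtain ⟨hne, l, hl, hu, hv⟩ := hG u v huv
      have h := col_pair (e.injective.ne hne) hl (List.mem_map_of_mem hu) (List.mem_map_of_mem hv)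
      rcases h with h | h
      · exact (lv_col2 h).1
      · exact (lv_col2 h).2
    · have hf := (fin_deg L).preimage (f := e) e.injective.injOn
      refine hf.subset ?_
      rintro u ⟨h3, h4⟩
      refine ⟨h3, ?_⟩
      have h5 : (e '' {v | G.Adj u v}).Infinite := h4.image e.injective.injOn
      refine h5.mono ?_
      rintro _ ⟨v, hv, rfl⟩
      obtain ⟨hne, l, hl, hu, hv'⟩ := hG u v hv
      exact col_pair (e.injective.ne hne) hl (List.mem_map_of_mem hu) (List.mem_map_of_mem hv')
  · intro C _ _ hdich X hX hinv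
    have haut : ∀ g : Equiv.Perm ℕ, (∀ l : List ℕ, col ((l.map g).map e) = col (l.map e)) →
        IsAut ((e.symm.trans g).trans e) := by
      intro g hg l
      have h1 := hg (l.map e.symm)
      have h2 : (l.map e.symm).map e = l := by
        rw [List.map_map]
        simp
      have h3 : ((l.map e.symm).map g).map e = l.map ((e.symm.trans g).trans e) := by
        rw [List.map_map, List.map_map]
        rfl
      rw [← h3, h1, h2]
    have haut' : ∀ a : Equiv.Perm V, IsAut a → ∀ l : List ℕ,
        col ((l.map ((e.trans a).trans e.symm)).map e) = col (l.map e) := by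
      intro a ha l
      have h1 := ha (l.map e)
      have h3 : (l.map e).map a = (l.map ((e.trans a).trans e.symm)).map e := by
        rw [List.map_map, List.map_map]
        refine List.map_congr_left fun x _ => ?_
        simp
      rw [← h3, h1]
    set K : (List ℕ → C) → ℕ → C := fun x i => chi x (e i) with hK
    set R : (ℕ → C) → List ℕ → C := fun c l => c (e.symm (Sum.inr (cst l, 0))) with hR
    have hRK : ∀ x, R (K x) = x := by
      intro x
      funext l
      change chi x (e (e.symm (Sum.inr (cst l, 0)))) = x l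
      rw [Equiv.apply_symm_apply]
      rfl
    have hKm : Measurable K := by
      refine measurable_pi_lambda _ fun i => ?_
      change Measurable fun x : List ℕ → C => chi x (e i)
      rcases e i with p | ⟨w, m⟩
      · exact measurable_pi_apply _
      · exact measurable_pi_apply _
    have hRm : Measurable R := measurable_pi_lambda _ fun l => measurable_pi_apply _
    have hKi : Function.Injective K := fun x y h => by rw [← hRK x, h, hRK]
    have hA : MeasurableSet (K '' X) := hX.image_of_measurable_injOn hKm hKi.injOn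
    have hmove : ∀ (x : List ℕ → C) (c' : ℕ → C) (g : Equiv.Perm ℕ),
        (∀ l : List ℕ, col ((l.map g).map e) = col (l.map e)) → (∀ i, c' (g i) = K x i) →
        ∃ π : Equiv.Perm ℕ, c' = K (fun l => x (l.map π)) := by
      intro x c' g hg hc
      obtain ⟨π, hπ⟩ := chi_aut (isAut_symm (haut g hg))
      refine ⟨π, funext fun i => ?_⟩
      have h1 := hc (g.symm i)
      rw [Equiv.apply_symm_apply] at h1
      have h2 := hπ x (e i)
      have h3 : ((e.symm.trans g).trans e).symm (e i) = e (g.symm i) := by simp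
      rw [h3] at h2
      rw [h1]
      exact h2
    have hmem : ∀ x ∈ X, ∀ π : Equiv.Perm ℕ, (fun l : List ℕ => x (l.map π)) ∈ X := by
      intro x hx π
      refine hinv x hx _ π.symm fun l => ?_
      change x ((l.map π.symm).map π) = x l
      rw [List.map_map]
      simp
    rcases hdich (K '' X) hA (by
        rintro _ ⟨x, hx, rfl⟩ c' g hg hc
        obtain ⟨π, rfl⟩ := hmove x c' g hg hc
        exact ⟨_, hmem x hx π, rfl⟩) with ⟨D, hD, hD'⟩ | ⟨F, hF, hFA, hFn⟩
    · left
      refine ⟨R '' D, hD.image _, fun x hx => ?_⟩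
      obtain ⟨c', hc', g, hg, hgc⟩ := hD' _ ⟨x, hx, rfl⟩
      obtain ⟨π, hπ⟩ := hmove x c' g hg hgc
      refine ⟨_, ⟨c', hc', rfl⟩, π.symm, fun l => ?_⟩
      rw [hπ, hRK]
      change x ((l.map π.symm).map π) = x l
      rw [List.map_map]
      simp
    · right
      refine ⟨fun u => R (F u), hRm.comp hF, fun u => ?_, fun u v huv => ?_⟩
      · obtain ⟨x, hx, hxF⟩ := hFA u
        change R (F u) ∈ X
        rw [← hxF, hRK]
        exact hx
      · rintro ⟨σ, hσ⟩
        apply hFn u v huv
        obtain ⟨a, ha, hac⟩ := chi_lift σ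
        refine ⟨(e.trans a).trans e.symm, haut' a ha, fun i => ?_⟩
        obtain ⟨x, hx, hxF⟩ := hFA u
        obtain ⟨y, hy, hyF⟩ := hFA v
        have h1 := hac y (e i)
        have h2 : (fun l : List ℕ => y (l.map σ)) = x := by
          funext l
          have h3 := hσ l
          simp only at h3
          rw [← hxF, ← hyF, hRK, hRK] at h3
          exact h3
        rw [← hyF, ← hxF]
        change chi y (e (((e.trans a).trans e.symm) i)) = chi x (e i)
        have h4 : e (((e.trans a).trans e.symm) i) = a (e i) := by simp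
        rw [h4, h1, h2]

end Pool.Agent.H71.RD
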